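import Pool.Agent.Q215.Mo.Defs

/-! # Project MO, job MO-ROLE: the roles are pinned -/

set_option autoImplicit false

namespace Pool.Agent.Q199.MO

open Pool.Agent.Q215.Mo Pool.Agent.Q215.Elus Rl

theorem hk_lt (k : ℕ) : hk k < 2 ^ k :=
  lt_of_le_of_lt (Nat.unpair_left_le k) Nat.lt_two_pow_self

theorem Cb_irrefl (n : ℕ) : ¬ Cb n n := by
  rintro ⟨k, _, h | ⟨h1, h2⟩⟩
  · omega
  · have := hk_lt k
    rw [pow_succ] at h2
    omega

theorem C_irrefl (n : ℕ) : ¬ C n n := fun h => h.elim (Cb_irrefl n) (Cb_irrefl n)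

theorem C_symm {n m : ℕ} (h : C n m) : C m n := Or.symm h

theorem C_ne {n m : ℕ} (h : C n m) : n ≠ m := by
  rintro rfl
  exact C_irrefl n h

theorem no_tri (hd : S_deg2) {x y z : ℕ} (h1 : C x y) (h2 : C y z) (h3 : C x z) : False := by
  obtain ⟨k, hk2, hsub, _⟩ := hd {x, y, z} ⟨x, by simp⟩ (by
    intro a ha
    simp only [Finset.mem_insert, Finset.mem_singleton] at ha
    rcases ha with rfl | rfl | rfl
    · exact ⟨y, by simp, z, by simp, C_ne h2, h1, h3⟩
    · exact ⟨x, by simp, z, by simp, C_ne h3, C_symm h1, h2⟩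
    · exact ⟨x, by simp, y, by simp, C_ne h1, C_symm h3, C_symm h2⟩)
  have h4 : Finset.Ico (2 ^ k) (2 ^ (k + 1)) ⊆ {x, y, z} :=
    (Finset.subset_insert _ _).trans hsub
  have h5 := Finset.card_le_card h4
  have h6 : ({x, y, z} : Finset ℕ).card ≤ 3 := Finset.card_le_three
  rw [Nat.card_Ico, pow_succ] at h5
  have h7 : 2 ^ 2 ≤ 2 ^ k := Nat.pow_le_pow_right (by norm_num) hk2
  omega

/-- the roles other than the cactus -/
def hc (r : Rl) : Prop := r = hub ∨ r = cen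

theorem not_hc {r : Rl} (h : ¬ hc r) : ∃ n, r = c n := by
  cases r with
  | hub => exact absurd (Or.inl rfl) h
  | cen => exact absurd (Or.inr rfl) h
  | c n => exact ⟨n, rfl⟩

theorem Amax_c {n m : ℕ} (h : Amax (c n) (c m)) : C n m := by
  rcases h with h | ⟨i, ⟨h, _⟩ | ⟨_, h⟩⟩
  · exact h
  · cases h
  · cases h

theorem tri_hc (hd : S_deg2) {a b d : Rl} (h1 : Amax a b) (h2 : Amax b d) (h3 : Amax a d)
    (ha : ¬ hc a) : hc b ∨ hc d := by
  by_contra h
  rw [not_or] at h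
  obtain ⟨x, rfl⟩ := not_hc ha
  obtain ⟨y, rfl⟩ := not_hc h.1
  obtain ⟨z, rfl⟩ := not_hc h.2
  exact no_tri hd (Amax_c h1) (Amax_c h2) (Amax_c h3)

/-- the number of a role -/
def rk : Rl → ℕ
  | hub => 0
  | cen => 0
  | c n => n

/-- the five pairs at the cycle number `k` -/
def P5 (k : ℕ) : Finset (Rl × Rl) :=
  {(hub, c (2 ^ k)), (hub, c (2 ^ k + 1)), (cen, c (2 ^ k)), (cen, c (2 ^ k + 1)),
    (c (2 ^ k), c (2 ^ k + 1))}

theorem P5_min {k : ℕ} (hk2 : 2 ≤ k) : ∀ p ∈ P5 k, Amin p.1 p.2 ∧ k ≤ rk p.2 := by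
  have h1 : k < 2 ^ k := Nat.lt_two_pow_self
  have h2 : 2 ^ 2 ≤ 2 ^ k := Nat.pow_le_pow_right (by norm_num) hk2
  intro p hp
  simp only [P5, Finset.mem_insert, Finset.mem_singleton] at hp
  rcases hp with rfl | rfl | rfl | rfl | rfl
  · exact ⟨trivial, by change k ≤ 2 ^ k; omega⟩
  · exact ⟨trivial, by change k ≤ 2 ^ k + 1; omega⟩
  · exact ⟨⟨k, hk2, Or.inl rfl⟩, by change k ≤ 2 ^ k; omega⟩
  · exact ⟨⟨k, hk2, Or.inr rfl⟩, by change k ≤ 2 ^ k + 1; omega⟩
  · refine ⟨Or.inl ⟨k, hk2, Or.inl ⟨le_refl _, rfl, ?_⟩⟩, by change k ≤ 2 ^ k + 1; omega⟩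
    rw [pow_succ]
    omega

/-- one of two consecutive vertices of the cycle number `k` goes to a special role -/
theorem P5_hc (hd : S_deg2) {φ : Rl → Rl} {k : ℕ} (h : ∀ p ∈ P5 k, Amax (φ p.1) (φ p.2))
    {x : Rl} (hx : hc x) (hn : ¬ hc (φ x)) : ∃ u, (u = 2 ^ k ∨ u = 2 ^ k + 1) ∧ hc (φ (c u)) := by
  have h1 : Amax (φ (c (2 ^ k))) (φ (c (2 ^ k + 1))) := h (_, _) (by simp [P5])
  have h2 : Amax (φ x) (φ (c (2 ^ k))) := by
    rcases hx with rfl | rfl
    · exact h (_, _) (by simp [P5])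
    · exact h (_, _) (by simp [P5])
  have h3 : Amax (φ x) (φ (c (2 ^ k + 1))) := by
    rcases hx with rfl | rfl
    · exact h (_, _) (by simp [P5])
    · exact h (_, _) (by simp [P5])
  rcases tri_hc hd h2 h1 h3 hn with h4 | h4
  · exact ⟨_, Or.inl rfl, h4⟩
  · exact ⟨_, Or.inr rfl, h4⟩

theorem three_hc {φ : Rl → Rl} (hφ : Function.Injective φ) {u1 u2 u3 : ℕ} (h12 : u1 ≠ u2)
    (h13 : u1 ≠ u3) (h23 : u2 ≠ u3) (h1 : hc (φ (c u1))) (h2 : hc (φ (c u2)))
    (h3 : hc (φ (c u3))) : False := by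
  have key : ∀ {u v : ℕ}, φ (c u) = φ (c v) → u = v := by
    intro u v h
    have := hφ h
    injection this
  rcases h1 with h1 | h1 <;> rcases h2 with h2 | h2 <;> rcases h3 with h3 | h3 <;>
    first
    | exact h12 (key (h1.trans h2.symm))
    | exact h13 (key (h1.trans h3.symm))
    | exact h23 (key (h2.trans h3.symm))

theorem hub_cen_hc (hd : S_deg2) {φ : Rl → Rl} (hφ : Function.Injective φ) {k : ℕ}
    (hk2 : 2 ≤ k)
    (h1 : ∀ p ∈ P5 k, Amax (φ p.1) (φ p.2)) (h2 : ∀ p ∈ P5 (k + 1), Amax (φ p.1) (φ p.2))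
    (h3 : ∀ p ∈ P5 (k + 2), Amax (φ p.1) (φ p.2)) {x : Rl} (hx : hc x) : hc (φ x) := by
  by_contra hn
  obtain ⟨u1, hu1, c1⟩ := P5_hc hd h1 hx hn
  obtain ⟨u2, hu2, c2⟩ := P5_hc hd h2 hx hn
  obtain ⟨u3, hu3, c3⟩ := P5_hc hd h3 hx hn
  have h7 : 2 ^ 2 ≤ 2 ^ k := Nat.pow_le_pow_right (by norm_num) hk2
  have e1 : 2 ^ (k + 1) = 2 ^ k * 2 := pow_succ _ _
  have e2 : 2 ^ (k + 2) = 2 ^ k * 4 := by rw [pow_add]; norm_num
  rw [e1] at hu2
  rw [e2] at hu3
  exact three_hc hφ (by omega) (by omega) (by omega) c1 c2 c3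

theorem s_rolepin : S_deg2 → S_cycpin → S_rolepin := by
  classical
  intro hd hcp F hF a
  -- a bound for the second entries
  obtain ⟨M, hM⟩ : ∃ M, ∀ p ∈ F, rk p.2 < M := by
    obtain ⟨M, hM⟩ := (hF.image (fun p => rk p.2)).bddAbove
    exact ⟨M + 1, fun p hp => Nat.lt_succ_of_le (hM ⟨p, hp, rfl⟩)⟩
  -- the cactus part
  have hF' : ({p : ℕ × ℕ | (c p.1, c p.2) ∈ F}).Finite := by
    refine hF.preimage (f := fun p : ℕ × ℕ => ((c p.1, c p.2) : Rl × Rl)) ?_
    rintro ⟨x1, x2⟩ _ ⟨y1, y2⟩ _ h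
    simp only [Prod.mk.injEq, Rl.c.injEq] at h
    exact Prod.ext h.1 h.2
  set n := 4 * M + 2 with hn
  obtain ⟨Qn, hQn, hQn'⟩ := hcp _ hF' n
  obtain ⟨Qv, hQv, hQv'⟩ := hcp _ hF' (rk a)
  let im : ℕ × ℕ → Rl × Rl := fun p => (c p.1, c p.2)
  have hk0 : 2 ≤ M + 2 := by omega
  refine ⟨P5 (M + 2) ∪ P5 (M + 2 + 1) ∪ P5 (M + 2 + 2) ∪ {(hub, c n)} ∪ Qn.image im ∪ Qv.image im,
    ?_, ?_⟩
  · intro p hp
    simp only [Finset.mem_union, Finset.mem_singleton, Finset.mem_image] at hp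
    rcases hp with ((((hp | hp) | hp) | hp) | ⟨q, hq, rfl⟩) | ⟨q, hq, rfl⟩
    · obtain ⟨h1, h2⟩ := P5_min hk0 p hp
      exact ⟨h1, fun h => by have := hM p h; omega⟩
    · obtain ⟨h1, h2⟩ := P5_min (by omega) p hp
      exact ⟨h1, fun h => by have := hM p h; omega⟩
    · obtain ⟨h1, h2⟩ := P5_min (by omega) p hp
      exact ⟨h1, fun h => by have := hM p h; omega⟩
    · subst hp
      refine ⟨trivial, fun h => ?_⟩
      have h2 := hM _ h
      change n < M at h2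
      omega
    · exact ⟨(hQn q hq).1, (hQn q hq).2⟩
    · exact ⟨(hQv q hq).1, (hQv q hq).2⟩
  · intro φ hφ hQ
    have hQ1 : ∀ p ∈ P5 (M + 2), Amax (φ p.1) (φ p.2) := fun p hp => hQ p (by
      simp only [Finset.mem_union]; tauto)
    have hQ2 : ∀ p ∈ P5 (M + 2 + 1), Amax (φ p.1) (φ p.2) := fun p hp => hQ p (by
      simp only [Finset.mem_union]; tauto)
    have hQ3 : ∀ p ∈ P5 (M + 2 + 2), Amax (φ p.1) (φ p.2) := fun p hp => hQ p (by
      simp only [Finset.mem_union]; tauto)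
    have hQ4 : Amax (φ hub) (φ (c n)) := hQ (hub, c n) (by
      simp only [Finset.mem_union, Finset.mem_singleton]; tauto)
    have hQ5 : ∀ q ∈ Qn, Amax (φ (c q.1)) (φ (c q.2)) := fun q hq => hQ (im q) (by
      have : im q ∈ Qn.image im := Finset.mem_image_of_mem _ hq
      simp only [Finset.mem_union]; tauto)
    have hQ6 : ∀ q ∈ Qv, Amax (φ (c q.1)) (φ (c q.2)) := fun q hq => hQ (im q) (by
      have : im q ∈ Qv.image im := Finset.mem_image_of_mem _ hq
      simp only [Finset.mem_union]; tauto)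
    have hhub : hc (φ hub) := hub_cen_hc hd hφ hk0 hQ1 hQ2 hQ3 (Or.inl rfl)
    have hcen : hc (φ cen) := hub_cen_hc hd hφ hk0 hQ1 hQ2 hQ3 (Or.inr rfl)
    have hne : φ hub ≠ φ cen := fun h => by cases hφ h
    -- the cactus goes to the cactus
    have hcact : ∀ m, ∃ m', φ (c m) = c m' := by
      intro m
      refine not_hc fun hm => ?_
      have n1 : φ (c m) ≠ φ hub := fun h => by cases hφ h
      have n2 : φ (c m) ≠ φ cen := fun h => by cases hφ h
      rcases hhub with h1 | h1 <;> rcases hcen with h2 | h2 <;> rcases hm with h3 | h3 <;>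
        first
        | exact hne (h1.trans h2.symm)
        | exact n1 (h3.trans h1.symm)
        | exact n2 (h3.trans h2.symm)
    choose ψ hψ using hcact
    have hψi : Function.Injective ψ := by
      intro x y h
      have : φ (c x) = φ (c y) := by rw [hψ, hψ, h]
      have := hφ this
      injection this
    have pinn : ψ n = n := hQn' ψ hψi fun q hq => by
      have := hQ5 q hq
      rw [hψ, hψ] at this
      exact Amax_c this
    have pinv : ψ (rk a) = rk a := hQv' ψ hψi fun q hq => by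
      have := hQ6 q hq
      rw [hψ, hψ] at this
      exact Amax_c this
    -- the hub
    have hub1 : φ hub = hub := by
      rcases hhub with h | h
      · exact h
      · exfalso
        rw [h, hψ, pinn] at hQ4
        rcases hQ4 with h4 | ⟨i, ⟨_, h4⟩ | ⟨h4, _⟩⟩
        · obtain ⟨k, hk2, h5⟩ := h4
          obtain ⟨l, rfl⟩ : ∃ l, k = l + 2 := ⟨k - 2, by omega⟩
          rw [pow_add] at h5
          omega
        · injection h4 with h5
          unfold vs at h5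
          rw [pow_add] at h5
          omega
        · cases h4
    have cen1 : φ cen = cen := by
      rcases hcen with h | h
      · exact absurd (hub1.trans h.symm) hne
      · exact h
    cases a with
    | hub => exact hub1
    | cen => exact cen1
    | c m =>
      rw [hψ]
      exact congrArg c pinv

end Pool.Agent.Q199.MO
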